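import Mathlib

open Filter Topology

namespace Pool.Agent.Results.MP_0c861e_co.PrimitiveProportion

/-- A convex geometry on `X`: a family of subsets of `X` containing the empty set, closed under
intersections, in which every member other than `X` extends by one element. -/
structure IsConvexGeometry {X : Type*} (G : Set (Set X)) : Prop where
  empty_mem : ∅ ∈ G
  inter_mem : ∀ F ∈ G, ∀ F' ∈ G, F ∩ F' ∈ G
  ext_mem : ∀ F ∈ G, F ≠ Set.univ → ∃ x, x ∉ F ∧ insert x F ∈ G

/-- The convex hull: the points lying in every member which contains `A`. -/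
def conv {X : Type*} (G : Set (Set X)) (A : Set X) : Set X := {x | ∀ F ∈ G, A ⊆ F → x ∈ F}

/-- The extreme points of `A`. -/
def ex {X : Type*} (G : Set (Set X)) (A : Set X) : Set X := {a | a ∈ A ∧ a ∉ conv G (A \ {a})}

/-- Isomorphism of families of sets. -/
def Isomorphic {X Y : Type*} (G : Set (Set X)) (H : Set (Set Y)) : Prop :=
  ∃ e : X ≃ Y, ∀ A : Set X, A ∈ G ↔ e '' A ∈ H

/-- The resolution with base `GB` and fibers `GY b`. -/
def resolution {B : Type*} {Y : B → Type*} (GB : Set (Set B)) (GY : ∀ b, Set (Set (Y b))) :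
    Set (Set (Σ b, Y b)) :=
  {D | Sigma.fst '' D ∈ GB ∧
    (∀ b ∈ Sigma.fst '' D, {y : Y b | (⟨b, y⟩ : Σ b, Y b) ∈ D} ∈ GY b) ∧
    ∀ b ∈ Sigma.fst '' D, b ∉ ex GB (Sigma.fst '' D) → ∀ y : Y b, (⟨b, y⟩ : Σ b, Y b) ∈ D}

/-- A family is primitive if it is not isomorphic to a resolution of convex geometries with a
base of at least two points and a fiber of at least two points. -/
def IsPrimitive {X : Type*} (G : Set (Set X)) : Prop :=
  ¬ ∃ (B : Type) (Y : B → Type) (GB : Set (Set B)) (GY : ∀ b, Set (Set (Y b))),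
    Finite B ∧ (∀ b, Finite (Y b)) ∧ (∀ b, Nonempty (Y b)) ∧
    IsConvexGeometry GB ∧ (∀ b, IsConvexGeometry (GY b)) ∧
    2 ≤ Nat.card B ∧ (∃ b, 2 ≤ Nat.card (Y b)) ∧ Isomorphic G (resolution GB GY)

/-- The convex geometries on a set. -/
abbrev CG (X : Type*) : Type _ := {G : Set (Set X) // IsConvexGeometry G}

/-- The number of labeled convex geometries on `n` points. -/
noncomputable def L (n : ℕ) : ℕ := Nat.card (CG (Fin n))

/-- The number of labeled primitive convex geometries on `n` points. -/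
noncomputable def Lpr (n : ℕ) : ℕ :=
  Nat.card {G : Set (Set (Fin n)) // IsConvexGeometry G ∧ IsPrimitive G}

theorem Isomorphic.refl {X : Type*} (G : Set (Set X)) : Isomorphic G G :=
  ⟨Equiv.refl X, fun A => by simp⟩

theorem Isomorphic.symm {X Y : Type*} {G : Set (Set X)} {H : Set (Set Y)}
    (h : Isomorphic G H) : Isomorphic H G := by
  obtain ⟨e, he⟩ := h
  refine ⟨e.symm, fun A => ?_⟩
  rw [he]
  simp

theorem Isomorphic.trans {X Y Z : Type*} {G : Set (Set X)} {H : Set (Set Y)} {K : Set (Set Z)}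
    (h : Isomorphic G H) (h' : Isomorphic H K) : Isomorphic G K := by
  obtain ⟨e, he⟩ := h
  obtain ⟨f, hf⟩ := h'
  refine ⟨e.trans f, fun A => ?_⟩
  rw [he, hf, Set.image_image]
  rfl

/-- Isomorphism of convex geometries on `n` labeled points. -/
def isoSetoid (n : ℕ) : Setoid (CG (Fin n)) where
  r G H := Isomorphic G.1 H.1
  iseqv := ⟨fun _ => Isomorphic.refl _, fun h => h.symm, fun h h' => h.trans h'⟩

/-- The number of isomorphism classes of convex geometries on `n` points. -/
noncomputable def U (n : ℕ) : ℕ := Nat.card (Quotient (isoSetoid n))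

/-- The number of isomorphism classes of primitive convex geometries on `n` points. -/
noncomputable def Upr (n : ℕ) : ℕ :=
  Nat.card {q : Quotient (isoSetoid n) //
    ∃ G : CG (Fin n), IsPrimitive G.1 ∧ Quotient.mk (isoSetoid n) G = q}

section Extension

variable {X : Type*}

/-- A geometry with one more point. -/
def extG (G : Set (Set X)) (j : ℕ) (T : Set (Set X)) : Set (Set (Option X)) :=
  {A | some ⁻¹' A ∈ G ∧ (none ∈ A ∨ (some ⁻¹' A).ncard < j ∨ some ⁻¹' A ∈ T)}

theorem extG_isCG [Finite X] {G : Set (Set X)} (hG : IsConvexGeometry G) {j : ℕ} (hj : 1 ≤ j)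
    {T : Set (Set X)} (hT : ∀ A ∈ T, A.ncard = j) : IsConvexGeometry (extG G j T) where
  empty_mem := by
    refine ⟨by simpa using hG.empty_mem, Or.inr (Or.inl ?_)⟩
    simp only [Set.preimage_empty, Set.ncard_empty]
    omega
  inter_mem := by
    rintro A ⟨hA1, hA2⟩ B ⟨hB1, hB2⟩
    have key : ∀ C D : Set X, (C.ncard < j ∨ C ∈ T) → C ∩ D ∈ G →
        ((C ∩ D).ncard < j ∨ C ∩ D ∈ T) := by
      intro C D hC _
      rcases hC with hC | hC
      · left
        exact lt_of_le_of_lt (Set.ncard_le_ncard Set.inter_subset_left (Set.toFinite _)) hC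
      · by_cases h : C ∩ D = C
        · right
          rw [h]; exact hC
        · left
          rw [← hT C hC]
          exact Set.ncard_lt_ncard
            (lt_of_le_of_ne Set.inter_subset_left h) (Set.toFinite _)
    refine ⟨?_, ?_⟩
    · rw [Set.preimage_inter]
      exact hG.inter_mem _ hA1 _ hB1
    · rw [Set.preimage_inter]
      rcases hA2 with hA2 | hA2
      · rcases hB2 with hB2 | hB2
        · exact Or.inl ⟨hA2, hB2⟩
        · right
          rw [Set.inter_comm]
          exact key _ _ hB2 (hG.inter_mem _ hB1 _ hA1)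
      · right
        exact key _ _ hA2 (hG.inter_mem _ hA1 _ hB1)
  ext_mem := by
    rintro A ⟨hA1, hA2⟩ hne
    by_cases hn : none ∈ A
    · have h1 : some ⁻¹' A ≠ Set.univ := by
        intro h
        apply hne
        ext x
        cases x with
        | none => simp [hn]
        | some x =>
          have : x ∈ some ⁻¹' A := by rw [h]; trivial
          simpa using this
      obtain ⟨x, hx, hx'⟩ := hG.ext_mem _ hA1 h1
      refine ⟨some x, hx, ?_, Or.inl (Or.inr hn)⟩
      have h2 : some ⁻¹' (insert (some x) A) = insert x (some ⁻¹' A) := by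
        ext y; simp
      rw [h2]; exact hx'
    · refine ⟨none, hn, ?_, Or.inl (Or.inl rfl)⟩
      have h2 : some ⁻¹' (insert none A) = some ⁻¹' A := by
        ext y; simp
      rw [h2]; exact hA1

theorem extG_inj {G G' : Set (Set X)} {j j' : ℕ} {T T' : Set (Set X)}
    (h : extG G j T = extG G' j' T') : G = G' := by
  have key : ∀ (H : Set (Set X)) (i : ℕ) (R : Set (Set X)) (A : Set X),
      A ∈ H ↔ insert none (some '' A) ∈ extG H i R := by
    intro H i R A
    have h2 : some ⁻¹' (insert none (some '' A)) = A := by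
      ext y; simp
    constructor
    · intro hA
      exact ⟨by rw [h2]; exact hA, Or.inl (Or.inl rfl)⟩
    · rintro ⟨h3, -⟩
      rwa [h2] at h3
  ext A
  rw [key G j T, key G' j' T', h]

theorem extG_inj2 {G : Set (Set X)} {j : ℕ} {T T' : Set (Set X)}
    (hT : ∀ A ∈ T, A.ncard = j ∧ A ∈ G) (hT' : ∀ A ∈ T', A.ncard = j ∧ A ∈ G)
    (h : extG G j T = extG G j T') : T = T' := by
  have key : ∀ (R : Set (Set X)), (∀ A ∈ R, A.ncard = j ∧ A ∈ G) → ∀ A : Set X,
      A ∈ R ↔ A.ncard = j ∧ some '' A ∈ extG G j R := by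
    intro R hR A
    have h2 : some ⁻¹' (some '' A) = A := by
      ext y; simp
    constructor
    · intro hA
      exact ⟨(hR A hA).1, by rw [h2]; exact (hR A hA).2, Or.inr (Or.inr (by rw [h2]; exact hA))⟩
    · rintro ⟨h3, h4, h5⟩
      rcases h5 with h5 | h5 | h5
      · simp at h5
      · rw [h2] at h5; omega
      · rwa [h2] at h5
  ext A
  rw [key T hT, key T' hT', h]

end Extension

theorem finite_CG (X : Type*) [Finite X] : Finite (CG X) := inferInstance

theorem cg_le_of_equiv {X Y : Type*} [Finite X] [Finite Y] (e : X ≃ Y) :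
    Nat.card (CG X) ≤ Nat.card (CG Y) := by
  refine Nat.card_le_card_of_injective
    (fun G : CG X => (⟨{A | e ⁻¹' A ∈ G.1}, ?_⟩ : CG Y)) ?_
  · refine ⟨?_, ?_, ?_⟩
    · simpa using G.2.empty_mem
    · intro F hF F' hF'
      exact G.2.inter_mem _ hF _ hF'
    · intro F hF hne
      have h1 : e ⁻¹' F ≠ Set.univ := by
        intro h
        apply hne
        rw [Set.eq_univ_iff_forall] at h ⊢
        intro y
        have := h (e.symm y)
        simpa using this
      obtain ⟨x, hx, hx'⟩ := G.2.ext_mem _ hF h1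
      refine ⟨e x, hx, ?_⟩
      have h2 : e ⁻¹' (insert (e x) F) = insert x (e ⁻¹' F) := by
        ext y; simp
      change e ⁻¹' (insert (e x) F) ∈ G.1
      rw [h2]; exact hx'
  · intro G H h
    have h1 : ∀ A : Set Y, e ⁻¹' A ∈ G.1 ↔ e ⁻¹' A ∈ H.1 := by
      intro A
      have := congrArg (fun K : CG Y => A ∈ K.1) h
      simpa using this
    apply Subtype.ext
    ext A
    have := h1 (e '' A)
    simpa using this

theorem L_mono_succ (n : ℕ) : L n ≤ L (n + 1) := by
  have e : Option (Fin n) ≃ Fin (n + 1) := (finSuccEquiv n).symm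
  refine le_trans ?_ (cg_le_of_equiv e)
  refine Nat.card_le_card_of_injective
    (fun G : CG (Fin n) => (⟨extG G.1 1 ∅, extG_isCG G.2 le_rfl (by simp)⟩ : CG (Option (Fin n)))) ?_
  intro G H h
  exact Subtype.ext (extG_inj (congrArg Subtype.val h))

theorem L_mono : Monotone L := monotone_nat_of_le_succ L_mono_succ

theorem L_le (n : ℕ) : L n ≤ 2 ^ 2 ^ n := by
  have h : Nat.card (Set (Set (Fin n))) = 2 ^ 2 ^ n := by
    rw [Nat.card_eq_fintype_card, Fintype.card_set, Fintype.card_set, Fintype.card_fin]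
  rw [← h]
  exact Nat.card_le_card_of_injective Subtype.val Subtype.val_injective

theorem lower (n j : ℕ) (hj : 1 ≤ j) : 2 ^ n.choose j ≤ L (n + 1) := by
  classical
  have e : Option (Fin n) ≃ Fin (n + 1) := (finSuccEquiv n).symm
  refine le_trans ?_ (cg_le_of_equiv e)
  have h : Nat.card (Set {s : Finset (Fin n) // s.card = j}) = 2 ^ n.choose j := by
    rw [Nat.card_eq_fintype_card, Fintype.card_set, Fintype.card_finset_len, Fintype.card_fin]
  have huniv : IsConvexGeometry (Set.univ : Set (Set (Fin n))) := by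
    refine ⟨trivial, fun _ _ _ _ => trivial, fun F _ hF => ?_⟩
    obtain ⟨x, hx⟩ := (Set.ne_univ_iff_exists_notMem F).1 hF
    exact ⟨x, hx, trivial⟩
  let T : Set {s : Finset (Fin n) // s.card = j} → Set (Set (Fin n)) :=
    fun W => {A | ∃ s ∈ W, A = (s.1 : Set (Fin n))}
  have hT : ∀ W, ∀ A ∈ T W, A.ncard = j := by
    rintro W A ⟨s, -, rfl⟩
    rw [Set.ncard_coe_finset]
    exact s.2
  rw [← h]
  refine Nat.card_le_card_of_injective
    (fun W => (⟨extG Set.univ j (T W), extG_isCG huniv hj (hT W)⟩ : CG (Option (Fin n)))) ?_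
  intro W W' hW
  have h1 := extG_inj2 (G := Set.univ) (T := T W) (T' := T W')
    (fun A hA => ⟨hT W A hA, trivial⟩) (fun A hA => ⟨hT W' A hA, trivial⟩)
    (congrArg Subtype.val hW)
  ext s
  have h2 : ∀ V : Set {s : Finset (Fin n) // s.card = j}, s ∈ V ↔ (s.1 : Set (Fin n)) ∈ T V := by
    intro V
    constructor
    · intro hs; exact ⟨s, hs, rfl⟩
    · rintro ⟨s', hs', h3⟩
      have : s = s' := Subtype.ext (by exact_mod_cast h3)
      rw [this]; exact hs'
  rw [h2 W, h2 W', h1]

theorem growth (n t : ℕ) : 2 ^ t * L n ≤ L (n + 1) + 2 ^ t * 2 ^ (n * (n * t + 1)) := by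
  classical
  let big : CG (Fin n) → Prop := fun G =>
    ∃ j, 1 ≤ j ∧ t ≤ {A | A ∈ G.1 ∧ A.ncard = j}.ncard
  have hsplit : L n =
      Nat.card {G : CG (Fin n) // big G} + Nat.card {G : CG (Fin n) // ¬ big G} := by
    rw [← Nat.card_sum]
    exact Nat.card_congr (Equiv.sumCompl big).symm
  have hbig : 2 ^ t * Nat.card {G : CG (Fin n) // big G} ≤ L (n + 1) := by
    have e : Option (Fin n) ≃ Fin (n + 1) := (finSuccEquiv n).symm
    refine le_trans ?_ (cg_le_of_equiv e)
    have hch : ∀ G : {G : CG (Fin n) // big G}, ∃ j, 1 ≤ j ∧ ∃ f : Fin t → Set (Fin n),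
        Function.Injective f ∧ ∀ i, f i ∈ G.1.1 ∧ (f i).ncard = j := by
      rintro ⟨G, j, hj, hcard⟩
      obtain ⟨s, hs, hsc⟩ := Set.exists_subset_card_eq hcard
      have hs' : Nat.card s = t := hsc
      let e : s ≃ Fin t := Finite.equivFinOfCardEq hs'
      exact ⟨j, hj, fun i => (e.symm i).1,
        Subtype.val_injective.comp e.symm.injective, fun i => hs (e.symm i).2⟩
    choose j hj f hf hf' using hch
    have h1 : 2 ^ t * Nat.card {G : CG (Fin n) // big G} =
        Nat.card (Set (Fin t) × {G : CG (Fin n) // big G}) := by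
      rw [Nat.card_prod]
      congr 1
      rw [Nat.card_eq_fintype_card, Fintype.card_set, Fintype.card_fin]
    rw [h1]
    refine Nat.card_le_card_of_injective
      (fun p => (⟨extG p.2.1.1 (j p.2) ((f p.2) '' p.1),
        extG_isCG p.2.1.2 (hj p.2) (by
          rintro A ⟨i, -, rfl⟩
          exact (hf' p.2 i).2)⟩ : CG (Option (Fin n)))) ?_
    rintro ⟨W, G⟩ ⟨W', G'⟩ h
    have h2 := congrArg Subtype.val h
    have h3 : G = G' := Subtype.ext (Subtype.ext (extG_inj h2))
    subst h3
    have h4 := extG_inj2 (by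
        rintro A ⟨i, -, rfl⟩
        exact ⟨(hf' G i).2, (hf' G i).1⟩) (by
        rintro A ⟨i, -, rfl⟩
        exact ⟨(hf' G i).2, (hf' G i).1⟩) h2
    have h5 : W = W' := (Set.image_injective.2 (hf G)) h4
    rw [h5]
  have hsmall : Nat.card {G : CG (Fin n) // ¬ big G} ≤ 2 ^ (n * (n * t + 1)) := by
    have hch : ∀ G : {G : CG (Fin n) // ¬ big G}, ∃ f : Fin (n * t + 1) → Set (Fin n),
        Set.range f = G.1.1 := by
      rintro ⟨G, hG⟩
      have hlay : ∀ j, 1 ≤ j → {A | A ∈ G.1 ∧ A.ncard = j}.ncard ≤ t := by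
        intro j hj
        by_contra h
        exact hG ⟨j, hj, by omega⟩
      have hcard : G.1.ncard ≤ n * t + 1 := by
        have hfin : G.1.Finite := Set.toFinite _
        rw [Set.ncard_eq_toFinset_card _ hfin]
        rw [Finset.card_eq_sum_card_fiberwise (f := Set.ncard) (t := Finset.range (n + 1)) (by
          intro A _
          simp only [Finset.coe_range, Set.mem_Iio]
          have := Set.ncard_le_card A
          rw [Nat.card_eq_fintype_card, Fintype.card_fin] at this
          omega)]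
        rw [Finset.sum_range_succ']
        apply add_le_add
        · refine (Finset.sum_le_card_nsmul _ _ t ?_).trans ?_
          · intro b _
            refine le_trans ?_ (hlay (b + 1) (by omega))
            rw [← Set.ncard_coe_finset]
            refine Set.ncard_le_ncard ?_ (Set.toFinite _)
            intro A hA
            simp only [Finset.coe_filter, Set.Finite.mem_toFinset, Set.mem_ofPred_eq] at hA
            exact hA
          · simp
        · rw [Finset.card_le_one]
          intro A hA B hB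
          simp only [Finset.mem_filter, Set.Finite.mem_toFinset] at hA hB
          rw [(Set.ncard_eq_zero (Set.toFinite A)).1 hA.2,
            (Set.ncard_eq_zero (Set.toFinite B)).1 hB.2]
      let e : G.1 ≃ Fin (Nat.card G.1) := Finite.equivFinOfCardEq rfl
      refine ⟨fun i => if h : i.1 < Nat.card G.1 then (e.symm ⟨i.1, h⟩).1 else ∅, ?_⟩
      ext A
      constructor
      · rintro ⟨i, rfl⟩
        simp only
        split_ifs with h
        · exact (e.symm ⟨i.1, h⟩).2
        · exact G.2.empty_mem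
      · intro hA
        have h1 := (e ⟨A, hA⟩).2
        have h2 : Nat.card G.1 ≤ n * t + 1 := hcard
        refine ⟨⟨(e ⟨A, hA⟩).1, by omega⟩, ?_⟩
        dsimp only
        rw [dif_pos h1]
        simp only [Fin.eta, Equiv.symm_apply_apply]
    choose f hf using hch
    have h1 : Nat.card (Fin (n * t + 1) → Set (Fin n)) = 2 ^ (n * (n * t + 1)) := by
      rw [Nat.card_fun, Nat.card_eq_fintype_card, Fintype.card_set, Fintype.card_fin,
        Nat.card_eq_fintype_card, Fintype.card_fin, ← pow_mul]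
    rw [← h1]
    refine Nat.card_le_card_of_injective f ?_
    intro G G' h
    apply Subtype.ext
    apply Subtype.ext
    rw [← hf G, ← hf G', h]
  rw [hsplit, mul_add]
  exact add_le_add hbig (Nat.mul_le_mul_left _ hsmall)

theorem IsConvexGeometry.univ_mem {X : Type*} [Finite X] {G : Set (Set X)}
    (hG : IsConvexGeometry G) : Set.univ ∈ G := by
  obtain ⟨F, hF, hmax⟩ := Set.exists_max_image G Set.ncard (Set.toFinite G) ⟨∅, hG.empty_mem⟩
  by_cases h : F = Set.univ
  · rwa [h] at hF
  · obtain ⟨x, hx, hx'⟩ := hG.ext_mem F hF h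
    have h1 := hmax _ hx'
    rw [Set.ncard_insert_of_notMem hx (Set.toFinite F)] at h1
    omega

theorem mem_ex_iff {B : Type*} {G : Set (Set B)} (hG : IsConvexGeometry G) {A : Set B}
    (hA : A ∈ G) {a : B} (ha : a ∈ A) : a ∈ ex G A ↔ A \ {a} ∈ G := by
  constructor
  · rintro ⟨_, h⟩
    have h' : ∃ F ∈ G, A \ {a} ⊆ F ∧ a ∉ F := by
      by_contra hno
      push Not at hno
      exact h (fun F hF hAF => hno F hF hAF)
    obtain ⟨F, hF, hAF, haF⟩ := h'
    have h1 : A \ {a} = A ∩ F := by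
      ext x
      constructor
      · rintro ⟨hx, hxa⟩
        exact ⟨hx, hAF ⟨hx, hxa⟩⟩
      · rintro ⟨hx, hxF⟩
        refine ⟨hx, fun h => haF ?_⟩
        rw [Set.mem_singleton_iff] at h
        rw [← h]; exact hxF
    rw [h1]
    exact hG.inter_mem _ hA _ hF
  · intro h
    exact ⟨ha, fun hc => (hc _ h le_rfl).2 rfl⟩

theorem isCG_map {X Y : Type*} (e : X ≃ Y) {G : Set (Set X)} (hG : IsConvexGeometry G) :
    IsConvexGeometry {A : Set Y | e ⁻¹' A ∈ G} := by
  refine ⟨?_, ?_, ?_⟩
  · simpa using hG.empty_mem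
  · intro F hF F' hF'
    exact hG.inter_mem _ hF _ hF'
  · intro F hF hne
    have h1 : e ⁻¹' F ≠ Set.univ := by
      intro h
      apply hne
      rw [Set.eq_univ_iff_forall] at h ⊢
      intro y
      have := h (e.symm y)
      simpa using this
    obtain ⟨x, hx, hx'⟩ := hG.ext_mem _ hF h1
    refine ⟨e x, hx, ?_⟩
    have h2 : e ⁻¹' (insert (e x) F) = insert x (e ⁻¹' F) := by
      ext y; simp
    change e ⁻¹' (insert (e x) F) ∈ G
    rw [h2]; exact hx'

/-- `S` is a block of `G` carrying the geometry `P`. -/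
def IsModule {X : Type*} (G : Set (Set X)) (S : Set X) (P : Set (Set S)) : Prop :=
  IsConvexGeometry P ∧ ∀ D : Set X, (D ∩ S).Nonempty →
    (D ∈ G ↔ D ∪ S ∈ G ∧ (Subtype.val ⁻¹' D : Set S) ∈ P ∧ (S ⊆ D ∨ D \ S ∈ G))

theorem exists_module {X : Type*} [Finite X] {G : Set (Set X)}
    (hp : ¬ IsPrimitive G) :
    ∃ S : Set X, 2 ≤ S.ncard ∧ S ≠ Set.univ ∧ ∃ P : Set (Set S), IsModule G S P := by
  unfold IsPrimitive at hp
  rw [not_not] at hp
  obtain ⟨B, Y, GB, GY, hB, hY, hYn, hGB, hGY, hB2, ⟨b0, hb0⟩, e, he⟩ := hp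
  let π : X → B := fun x => (e x).1
  have he' : ∀ D : Set X, D ∈ G ↔ (π '' D ∈ GB ∧
      (∀ b ∈ π '' D, {y : Y b | e.symm ⟨b, y⟩ ∈ D} ∈ GY b) ∧
      ∀ b ∈ π '' D, b ∉ ex GB (π '' D) → ∀ y : Y b, e.symm ⟨b, y⟩ ∈ D) := by
    intro D
    rw [he]
    have h1 : Sigma.fst '' (e '' D) = π '' D := by
      rw [Set.image_image]
    have h2 : ∀ z, z ∈ e '' D ↔ e.symm z ∈ D := by
      intro z
      rw [Equiv.image_eq_preimage_symm]
      rfl
    unfold resolution
    simp only [Set.mem_ofPred_eq, h1, h2]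
  let S : Set X := {x | π x = b0}
  let φ : Y b0 ≃ S :=
    { toFun := fun y => ⟨e.symm ⟨b0, y⟩, by simp [S, π]⟩
      invFun := fun x => cast (congrArg Y x.2) (e x.1).2
      left_inv := fun y => by
        simp only
        have h : e (e.symm (⟨b0, y⟩ : Σ b, Y b)) = ⟨b0, y⟩ := e.apply_symm_apply _
        have h' : HEq (e (e.symm (⟨b0, y⟩ : Σ b, Y b))).2 y := by rw [h]
        exact eq_of_heq ((cast_heq _ _).trans h')
      right_inv := fun x => by
        apply Subtype.ext
        simp only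
        rw [Equiv.symm_apply_eq]
        have h : (e x.1).1 = b0 := x.2
        refine Sigma.ext h.symm ?_
        exact (cast_heq _ _) }
  have hSc : S.ncard = Nat.card (Y b0) := (Nat.card_congr φ).symm
  have hπS : ∀ x, x ∈ S ↔ π x = b0 := fun x => Iff.rfl
  have hSym : ∀ (b : B) (y : Y b), π (e.symm ⟨b, y⟩) = b := fun b y => by simp [π]
  refine ⟨S, by rw [hSc]; exact hb0, ?_, {A | φ ⁻¹' A ∈ GY b0}, isCG_map φ (hGY b0), ?_⟩
  · have : Nontrivial B := Finite.one_lt_card_iff_nontrivial.1 (by omega)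
    obtain ⟨b, hb⟩ := exists_ne b0
    obtain ⟨y⟩ := hYn b
    intro h
    have h1 : e.symm ⟨b, y⟩ ∈ S := by rw [h]; trivial
    rw [hπS, hSym] at h1
    exact hb h1
  · intro D hD
    obtain ⟨x1, hx1D, hx1S⟩ := hD
    have hb0D : b0 ∈ π '' D := ⟨x1, hx1D, hx1S⟩
    have hU : π '' (D ∪ S) = π '' D := by
      apply Set.Subset.antisymm
      · rintro _ ⟨x, hx | hx, rfl⟩
        · exact ⟨x, hx, rfl⟩
        · rw [(hπS x).1 hx]; exact hb0D
      · exact Set.image_mono Set.subset_union_left
    have hDiff : π '' (D \ S) = π '' D \ {b0} := by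
      ext b
      constructor
      · rintro ⟨x, ⟨hx, hxS⟩, rfl⟩
        exact ⟨⟨x, hx, rfl⟩, hxS⟩
      · rintro ⟨⟨x, hx, rfl⟩, hb⟩
        exact ⟨x, ⟨hx, hb⟩, rfl⟩
    have hne : ∀ (b : B), b ≠ b0 → ∀ y : Y b, e.symm ⟨b, y⟩ ∉ S := by
      intro b hb y h
      rw [hπS, hSym] at h
      exact hb h
    have hb0S : ∀ y : Y b0, e.symm ⟨b0, y⟩ ∈ S := fun y => by rw [hπS, hSym]
    have hPD : φ ⁻¹' (Subtype.val ⁻¹' D) = {y : Y b0 | e.symm ⟨b0, y⟩ ∈ D} := rfl
    constructor
    · intro hDG
      obtain ⟨h1, h2, h3⟩ := (he' D).1 hDG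
      refine ⟨?_, ?_, ?_⟩
      · rw [he', hU]
        refine ⟨h1, ?_, ?_⟩
        · intro b hb
          by_cases hbb : b = b0
          · subst hbb
            have h4 : {y : Y b | e.symm ⟨b, y⟩ ∈ D ∪ S} = Set.univ := by
              rw [Set.eq_univ_iff_forall]
              intro y
              exact Or.inr (hb0S y)
            rw [h4]
            exact (hGY b).univ_mem
          · have h4 : {y : Y b | e.symm ⟨b, y⟩ ∈ D ∪ S} = {y : Y b | e.symm ⟨b, y⟩ ∈ D} := by
              ext y
              constructor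
              · rintro (h | h)
                · exact h
                · exact absurd h (hne b hbb y)
              · intro h; exact Or.inl h
            rw [h4]
            exact h2 b hb
        · intro b hb hb' y
          exact Or.inl (h3 b hb hb' y)
      · change φ ⁻¹' (Subtype.val ⁻¹' D) ∈ GY b0
        rw [hPD]
        exact h2 b0 hb0D
      · by_cases hex : b0 ∈ ex GB (π '' D)
        · right
          have h4 := (mem_ex_iff hGB h1 hb0D).1 hex
          rw [he', hDiff]
          refine ⟨h4, ?_, ?_⟩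
          · intro b hb
            have h5 : {y : Y b | e.symm ⟨b, y⟩ ∈ D \ S} = {y : Y b | e.symm ⟨b, y⟩ ∈ D} := by
              ext y
              constructor
              · intro h; exact h.1
              · intro h; exact ⟨h, hne b hb.2 y⟩
            rw [h5]
            exact h2 b hb.1
          · intro b hb hb' y
            refine ⟨h3 b hb.1 ?_ y, hne b hb.2 y⟩
            intro h5
            apply hb'
            rw [mem_ex_iff hGB h1 hb.1] at h5
            rw [mem_ex_iff hGB h4 hb]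
            have h6 : (π '' D \ {b0}) \ {b} = (π '' D \ {b}) ∩ (π '' D \ {b0}) := by
              ext z
              constructor
              · rintro ⟨⟨hz1, hz2⟩, hz3⟩
                exact ⟨⟨hz1, hz3⟩, ⟨hz1, hz2⟩⟩
              · rintro ⟨⟨hz1, hz3⟩, ⟨_, hz2⟩⟩
                exact ⟨⟨hz1, hz2⟩, hz3⟩
            rw [h6]
            exact hGB.inter_mem _ h5 _ h4
        · left
          intro x hx
          have h4 := h3 b0 hb0D hex (φ.symm ⟨x, hx⟩)
          have h5 : e.symm ⟨b0, φ.symm ⟨x, hx⟩⟩ = x := by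
            have := congrArg Subtype.val (φ.apply_symm_apply ⟨x, hx⟩)
            exact this
          rwa [h5] at h4
    · rintro ⟨hDS, hP, halt⟩
      obtain ⟨h1, h2, h3⟩ := (he' (D ∪ S)).1 hDS
      rw [hU] at h1 h2 h3
      rw [he']
      refine ⟨h1, ?_, ?_⟩
      · intro b hb
        by_cases hbb : b = b0
        · subst hbb
          have hP' : φ ⁻¹' (Subtype.val ⁻¹' D) ∈ GY b := hP
          rw [hPD] at hP'
          exact hP'
        · have h4 : {y : Y b | e.symm ⟨b, y⟩ ∈ D ∪ S} = {y : Y b | e.symm ⟨b, y⟩ ∈ D} := by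
            ext y
            constructor
            · rintro (h | h)
              · exact h
              · exact absurd h (hne b hbb y)
            · intro h; exact Or.inl h
          rw [← h4]
          exact h2 b hb
      · intro b hb hb' y
        by_cases hbb : b = b0
        · subst hbb
          rcases halt with halt | halt
          · exact halt (hb0S y)
          · exfalso
            apply hb'
            rw [mem_ex_iff hGB h1 hb, ← hDiff]
            exact ((he' _).1 halt).1
        · rcases h3 b hb hb' y with h | h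
          · exact h
          · exact absurd h (hne b hbb y)

/-- Blow up the contracted point `none` to the block `S`. -/
def liftSet {X : Type*} (S : Set X) (C : Set (Option ↥Sᶜ)) : Set X :=
  {x | (∃ h : x ∈ Sᶜ, some ⟨x, h⟩ ∈ C) ∨ (x ∈ S ∧ none ∈ C)}

/-- The contraction of the block `S`. -/
def quotG {X : Type*} (G : Set (Set X)) (S : Set X) : Set (Set (Option ↥Sᶜ)) :=
  {C | liftSet S C ∈ G}

theorem mem_lift_of_not {X : Type*} {S : Set X} {C : Set (Option ↥Sᶜ)} {x : X} (hx : x ∈ Sᶜ) :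
    x ∈ liftSet S C ↔ some ⟨x, hx⟩ ∈ C := by
  constructor
  · rintro (⟨_, h⟩ | ⟨h, _⟩)
    · exact h
    · exact absurd h hx
  · intro h
    exact Or.inl ⟨hx, h⟩

theorem mem_lift_of_mem {X : Type*} {S : Set X} {C : Set (Option ↥Sᶜ)} {x : X} (hx : x ∈ S) :
    x ∈ liftSet S C ↔ none ∈ C := by
  constructor
  · rintro (⟨h, _⟩ | ⟨_, h⟩)
    · exact absurd hx h
    · exact h
  · intro h
    exact Or.inr ⟨hx, h⟩

theorem quotG_isCG {X : Type*} {G : Set (Set X)} (hG : IsConvexGeometry G) {S : Set X}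
    (hS : S.Nonempty) {P : Set (Set S)} (hM : IsModule G S P) :
    IsConvexGeometry (quotG G S) := by
  obtain ⟨s0, hs0⟩ := hS
  refine ⟨?_, ?_, ?_⟩
  · have h : liftSet S (∅ : Set (Option ↥Sᶜ)) = ∅ := by
      ext x
      by_cases hx : x ∈ S
      · rw [mem_lift_of_mem hx]; simp
      · rw [mem_lift_of_not hx]; simp
    change liftSet S (∅ : Set (Option ↥Sᶜ)) ∈ G
    rw [h]; exact hG.empty_mem
  · intro F hF F' hF'
    have h : liftSet S (F ∩ F') = liftSet S F ∩ liftSet S F' := by
      ext x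
      by_cases hx : x ∈ S
      · rw [Set.mem_inter_iff, mem_lift_of_mem hx, mem_lift_of_mem hx, mem_lift_of_mem hx]
        rfl
      · have hx' : x ∈ Sᶜ := hx
        rw [Set.mem_inter_iff, mem_lift_of_not hx', mem_lift_of_not hx', mem_lift_of_not hx']
        rfl
    change liftSet S (F ∩ F') ∈ G
    rw [h]; exact hG.inter_mem _ hF _ hF'
  · intro C hC hne
    have h1 : liftSet S C ≠ Set.univ := by
      intro h
      apply hne
      rw [Set.eq_univ_iff_forall] at h ⊢
      intro c
      cases c with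
      | none => exact (mem_lift_of_mem hs0).1 (h s0)
      | some x => exact (mem_lift_of_not x.2).1 (h x.1)
    obtain ⟨x, hx, hx'⟩ := hG.ext_mem _ hC h1
    by_cases hxS : x ∈ S
    · have hnC : none ∉ C := fun h => hx ((mem_lift_of_mem hxS).2 h)
      refine ⟨none, hnC, ?_⟩
      have h2 := ((hM.2 (insert x (liftSet S C)) ⟨x, Or.inl rfl, hxS⟩).1 hx').1
      have h3 : liftSet S (insert none C) = insert x (liftSet S C) ∪ S := by
        ext z
        by_cases hz : z ∈ S
        · rw [mem_lift_of_mem hz]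
          exact ⟨fun _ => Or.inr hz, fun _ => Or.inl rfl⟩
        · have hz' : z ∈ Sᶜ := hz
          rw [mem_lift_of_not hz']
          constructor
          · rintro (h | h)
            · cases h
            · exact Or.inl (Or.inr ((mem_lift_of_not hz').2 h))
          · rintro ((h | h) | h)
            · rw [h] at hz; exact absurd hxS hz
            · exact Or.inr ((mem_lift_of_not hz').1 h)
            · exact absurd h hz
      change liftSet S (insert none C) ∈ G
      rw [h3]; exact h2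
    · have hxS' : x ∈ Sᶜ := hxS
      refine ⟨some ⟨x, hxS'⟩, fun h => hx ((mem_lift_of_not hxS').2 h), ?_⟩
      have h3 : liftSet S (insert (some ⟨x, hxS'⟩) C) = insert x (liftSet S C) := by
        ext z
        by_cases hz : z ∈ S
        · rw [mem_lift_of_mem hz]
          constructor
          · rintro (h | h)
            · cases h
            · exact Or.inr ((mem_lift_of_mem hz).2 h)
          · rintro (h | h)
            · rw [h] at hz; exact absurd hz hxS
            · exact Or.inr ((mem_lift_of_mem hz).1 h)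
        · have hz' : z ∈ Sᶜ := hz
          rw [mem_lift_of_not hz']
          constructor
          · rintro (h | h)
            · left
              have := Option.some.inj h
              exact congrArg Subtype.val this
            · exact Or.inr ((mem_lift_of_not hz').2 h)
          · rintro (h | h)
            · left
              subst h
              rfl
            · exact Or.inr ((mem_lift_of_not hz').1 h)
      change liftSet S (insert (some ⟨x, hxS'⟩) C) ∈ G
      rw [h3]; exact hx'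

theorem exists_lift {X : Type*} (S D : Set X) (h : D ∩ S = ∅ ∨ S ⊆ D) :
    ∃ C : Set (Option ↥Sᶜ), liftSet S C = D := by
  refine ⟨{c | (∃ x : ↥Sᶜ, c = some x ∧ x.1 ∈ D) ∨ (c = none ∧ S ⊆ D)}, ?_⟩
  ext z
  by_cases hz : z ∈ S
  · rw [mem_lift_of_mem hz]
    constructor
    · rintro (⟨x, hx, _⟩ | ⟨_, hx⟩)
      · cases hx
      · exact hx hz
    · intro hzD
      right
      refine ⟨rfl, ?_⟩
      rcases h with h | h
      · exfalso
        have : z ∈ D ∩ S := ⟨hzD, hz⟩
        rw [h] at this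
        exact this
      · exact h
  · have hz' : z ∈ Sᶜ := hz
    rw [mem_lift_of_not hz']
    constructor
    · rintro (⟨x, hx, hxD⟩ | ⟨hx, _⟩)
      · have := Option.some.inj hx
        rw [← this] at hxD
        exact hxD
      · cases hx
    · intro hzD
      exact Or.inl ⟨⟨z, hz'⟩, rfl, hzD⟩

theorem module_inj {X : Type*} {G H : Set (Set X)} {S : Set X}
    {P : Set (Set S)} (hG : IsModule G S P) (hH : IsModule H S P)
    (h : quotG G S = quotG H S) : G = H := by
  have key : ∀ D : Set X, (D ∩ S = ∅ ∨ S ⊆ D) → (D ∈ G ↔ D ∈ H) := by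
    intro D hD
    obtain ⟨C, rfl⟩ := exists_lift S D hD
    change C ∈ quotG G S ↔ C ∈ quotG H S
    rw [h]
  ext D
  by_cases hD : (D ∩ S).Nonempty
  · rw [hG.2 D hD, hH.2 D hD, key (D ∪ S) (Or.inr Set.subset_union_right)]
    have h1 : D \ S ∈ G ↔ D \ S ∈ H := key (D \ S) (Or.inl (by
      ext z
      simp))
    rw [h1]
  · exact key D (Or.inl (Set.not_nonempty_iff_eq_empty.1 hD))

theorem nonprim_le (n : ℕ) : Nat.card {G : CG (Fin (n + 1)) // ¬ IsPrimitive G.1} ≤
    2 ^ (n + 1) * (2 ^ 2 ^ (n / 2 + 1) * L n) := by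
  classical
  have hch : ∀ G : {G : CG (Fin (n + 1)) // ¬ IsPrimitive G.1},
      ∃ S : {S : Set (Fin (n + 1)) // 2 ≤ S.ncard ∧ S ≠ Set.univ},
        ∃ P : Set (Set S.1), IsModule G.1.1 S.1 P := by
    intro G
    obtain ⟨S, h1, h2, P, h3⟩ := exists_module G.2
    exact ⟨⟨S, h1, h2⟩, P, h3⟩
  choose S P hP using hch
  have hne : ∀ S : {S : Set (Fin (n + 1)) // 2 ≤ S.ncard ∧ S ≠ Set.univ}, S.1.Nonempty := by
    intro S
    rw [Set.nonempty_iff_ne_empty]
    intro h
    have := S.2.1
    rw [h, Set.ncard_empty] at this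
    omega
  have hinj : Function.Injective
      (fun G : {G : CG (Fin (n + 1)) // ¬ IsPrimitive G.1} =>
        (⟨S G, (⟨P G, (hP G).1⟩, ⟨quotG G.1.1 (S G).1,
          quotG_isCG G.1.2 (hne (S G)) (hP G)⟩)⟩ :
        Σ S : {S : Set (Fin (n + 1)) // 2 ≤ S.ncard ∧ S ≠ Set.univ},
          CG ↥S.1 × CG (Option ↥(S.1)ᶜ))) := by
    intro G G' h
    simp only [Sigma.mk.injEq] at h
    obtain ⟨h1, h2⟩ := h
    have key : ∀ (T : {S : Set (Fin (n + 1)) // 2 ≤ S.ncard ∧ S ≠ Set.univ})
        (Q : Set (Set T.1)) (hQ : IsModule G'.1.1 T.1 Q), S G = T →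
        HEq (((⟨P G, (hP G).1⟩, ⟨quotG G.1.1 (S G).1,
          quotG_isCG G.1.2 (hne (S G)) (hP G)⟩) : CG ↥(S G).1 × CG (Option ↥((S G).1)ᶜ)))
          (((⟨Q, hQ.1⟩, ⟨quotG G'.1.1 T.1,
          quotG_isCG G'.1.2 (hne T) hQ⟩) : CG ↥T.1 × CG (Option ↥(T.1)ᶜ))) → G = G' := by
      intro T Q hQ hT
      subst hT
      intro h3
      have h4 := eq_of_heq h3
      simp only [Prod.mk.injEq, Subtype.mk.injEq] at h4
      obtain ⟨h5, h6⟩ := h4
      subst h5
      exact Subtype.ext (Subtype.ext (module_inj (hP G) hQ h6))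
    exact key _ (P G') (hP G') h1 h2
  refine (Nat.card_le_card_of_injective _ hinj).trans ?_
  rw [Nat.card_sigma]
  refine (Finset.sum_le_card_nsmul _ _ (2 ^ 2 ^ (n / 2 + 1) * L n) ?_).trans ?_
  · rintro ⟨S, hS2, hSu⟩ _
    rw [Nat.card_prod]
    have hb : Nat.card ↥S = S.ncard := rfl
    have hlt : S.ncard < n + 1 := by
      have h1 := Set.ncard_lt_ncard (Set.ssubset_univ_iff.2 hSu) (Set.toFinite _)
      rw [Set.ncard_univ, Nat.card_eq_fintype_card, Fintype.card_fin] at h1
      exact h1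
    have hc : Nat.card (Option ↥Sᶜ) = n + 2 - S.ncard := by
      rw [Finite.card_option]
      have h1 := Set.ncard_add_ncard_compl S
      rw [Nat.card_eq_fintype_card, Fintype.card_fin] at h1
      have h2 : Nat.card ↥Sᶜ = Sᶜ.ncard := rfl
      rw [h2]
      omega
    have h1 : Nat.card (CG ↥S) ≤ L S.ncard :=
      cg_le_of_equiv (Finite.equivFinOfCardEq hb)
    have h2 : Nat.card (CG (Option ↥Sᶜ)) ≤ L (n + 2 - S.ncard) :=
      cg_le_of_equiv (Finite.equivFinOfCardEq hc)
    have h3 : ∀ c, c ≤ n / 2 + 1 → L c ≤ 2 ^ 2 ^ (n / 2 + 1) := fun c hc =>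
      (L_le c).trans (Nat.pow_le_pow_right (by norm_num) (Nat.pow_le_pow_right (by norm_num) hc))
    by_cases hcase : S.ncard ≤ n / 2 + 1
    · exact Nat.mul_le_mul (h1.trans (h3 _ hcase)) (h2.trans (L_mono (by omega)))
    · rw [mul_comm]
      exact Nat.mul_le_mul (h2.trans (h3 _ (by omega))) (h1.trans (L_mono (by omega)))
  · rw [smul_eq_mul]
    apply Nat.mul_le_mul_right
    have h1 : (Finset.univ : Finset {S : Set (Fin (n + 1)) // 2 ≤ S.ncard ∧ S ≠ Set.univ}).card =
        Nat.card {S : Set (Fin (n + 1)) // 2 ≤ S.ncard ∧ S ≠ Set.univ} := by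
      rw [Nat.card_eq_fintype_card, Finset.card_univ]
    rw [h1]
    refine (Nat.card_le_card_of_injective Subtype.val Subtype.val_injective).trans ?_
    rw [Nat.card_eq_fintype_card, Fintype.card_set, Fintype.card_fin]

theorem num1 (j : ℕ) : (2 * j + 41) ^ 3 + 1 ≤ 2 ^ (j + 17) := by
  induction j with
  | zero => norm_num
  | succ j ih =>
    have h : (2 * (j + 1) + 41) ^ 3 + 1 ≤ 2 * ((2 * j + 41) ^ 3 + 1) := by
      ring_nf
      nlinarith [Nat.zero_le j, Nat.zero_le (j ^ 2), Nat.zero_le (j ^ 3)]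
    calc (2 * (j + 1) + 41) ^ 3 + 1 ≤ 2 * ((2 * j + 41) ^ 3 + 1) := h
      _ ≤ 2 * 2 ^ (j + 17) := Nat.mul_le_mul_left _ ih
      _ = 2 ^ (j + 1 + 17) := by ring

theorem num2 (j : ℕ) : (2 * j + 42) ^ 2 + (4 * j + 84) ≤ 2 ^ (j + 21) := by
  induction j with
  | zero => norm_num
  | succ j ih =>
    have h : (2 * (j + 1) + 42) ^ 2 + (4 * (j + 1) + 84) ≤
        2 * ((2 * j + 42) ^ 2 + (4 * j + 84)) := by
      ring_nf
      nlinarith [Nat.zero_le j, Nat.zero_le (j ^ 2)]
    calc _ ≤ 2 * ((2 * j + 42) ^ 2 + (4 * j + 84)) := h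
      _ ≤ 2 * 2 ^ (j + 21) := Nat.mul_le_mul_left _ ih
      _ = 2 ^ (j + 1 + 21) := by ring

/-- The exponent used in the growth estimate. -/
def tt (n : ℕ) : ℕ := 2 ^ (n / 2 + 1) + (n + 1) ^ 2 + 2 * n + 2

theorem num3 (n : ℕ) (hn : 40 ≤ n) : n * (n * (n * tt n + 1) + 1) ≤ 2 ^ (n - 1) := by
  obtain ⟨j, hj⟩ : ∃ j, n / 2 = j + 20 := ⟨n / 2 - 20, by omega⟩
  have hn1 : n ≤ 2 * j + 41 := by omega
  have hn2 : 2 * j + 39 ≤ n - 1 := by omega
  have ht : tt n ≤ 2 ^ (j + 22) := by
    unfold tt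
    rw [hj]
    have h1 : (n + 1) ^ 2 + 2 * n + 2 ≤ (2 * j + 42) ^ 2 + (4 * j + 84) := by
      have : (n + 1) ^ 2 ≤ (2 * j + 42) ^ 2 := Nat.pow_le_pow_left (by omega) 2
      omega
    have h2 := num2 j
    have h3 : 2 ^ (j + 22) = 2 ^ (j + 20 + 1) + 2 ^ (j + 21) := by ring
    omega
  have h1 := num1 j
  have hm1 : 1 ≤ 2 ^ (j + 22) := Nat.one_le_two_pow
  set T := 2 ^ (j + 22) with hT
  set m := 2 * j + 41 with hm
  have h4 : m ^ 2 + m ≤ T := by
    have h5 : m ^ 2 + m ≤ m ^ 3 + 1 := by
      have : 41 ≤ m := by omega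
      nlinarith [Nat.zero_le m, Nat.mul_le_mul this this, Nat.mul_le_mul_right (m ^ 2) this]
    have h6 : 2 ^ (j + 17) ≤ T := Nat.pow_le_pow_right (by norm_num) (by omega)
    omega
  calc n * (n * (n * tt n + 1) + 1) ≤ m * (m * (m * T + 1) + 1) := by gcongr
    _ = m ^ 3 * T + (m ^ 2 + m) := by ring
    _ ≤ m ^ 3 * T + T := by omega
    _ = (m ^ 3 + 1) * T := by ring
    _ ≤ 2 ^ (j + 17) * T := Nat.mul_le_mul_right _ h1
    _ = 2 ^ (2 * j + 39) := by rw [hT]; ring
    _ ≤ 2 ^ (n - 1) := Nat.pow_le_pow_right (by norm_num) hn2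

theorem step_growth (n : ℕ) (hn : 40 ≤ n) : 2 ^ tt n * L n ≤ 2 * L (n + 1) := by
  have h1 := growth n (tt n)
  have h2 : 2 ^ (n * (n * tt n + 1) + 1) ≤ L n := by
    obtain ⟨m, rfl⟩ : ∃ m, n = m + 1 := ⟨n - 1, by omega⟩
    refine le_trans ?_ (lower m (m / 2) (by omega))
    apply Nat.pow_le_pow_right (by norm_num)
    have h3 : 2 ^ m ≤ (m + 1) * m.choose (m / 2) := by
      rw [← Nat.sum_range_choose]
      refine (Finset.sum_le_card_nsmul _ _ (m.choose (m / 2)) ?_).trans ?_
      · intro r _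
        exact Nat.choose_le_middle r m
      · simp
    have h4 := num3 (m + 1) hn
    have h5 : m + 1 - 1 = m := by omega
    rw [h5] at h4
    exact Nat.le_of_mul_le_mul_left (h4.trans h3) (by omega)
  have h3 : 2 * (2 ^ tt n * 2 ^ (n * (n * tt n + 1))) ≤ 2 ^ tt n * L n := by
    calc 2 * (2 ^ tt n * 2 ^ (n * (n * tt n + 1))) = 2 ^ tt n * 2 ^ (n * (n * tt n + 1) + 1) := by
          ring
      _ ≤ 2 ^ tt n * L n := Nat.mul_le_mul_left _ h2
  omega

/-- The number of labeled convex geometries which are not primitive. -/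
noncomputable def np (n : ℕ) : ℕ := Nat.card {G : CG (Fin n) // ¬ IsPrimitive G.1}

theorem main_bound (n : ℕ) (hn : 40 ≤ n) :
    np (n + 1) * (n + 1).factorial * 2 ^ n ≤ L (n + 1) := by
  have h1 := nonprim_le n
  have h2 := step_growth n hn
  have h3 : (n + 1).factorial ≤ 2 ^ ((n + 1) ^ 2) := by
    calc (n + 1).factorial ≤ (n + 1) ^ (n + 1) := Nat.factorial_le_pow _
      _ ≤ (2 ^ (n + 1)) ^ (n + 1) := Nat.pow_le_pow_left (Nat.lt_two_pow_self.le) _
      _ = 2 ^ ((n + 1) ^ 2) := by rw [← pow_mul]; ring_nf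
  have h4 : 2 * (np (n + 1) * (n + 1).factorial * 2 ^ n) ≤ 2 * L (n + 1) := by
    calc 2 * (np (n + 1) * (n + 1).factorial * 2 ^ n)
        ≤ 2 * ((2 ^ (n + 1) * (2 ^ 2 ^ (n / 2 + 1) * L n)) * 2 ^ ((n + 1) ^ 2) * 2 ^ n) := by
          gcongr
          exact h1
      _ = 2 ^ tt n * L n := by
          unfold tt
          have : 2 ^ (n / 2 + 1) + (n + 1) ^ 2 + 2 * n + 2 =
            1 + (n + 1) + 2 ^ (n / 2 + 1) + (n + 1) ^ 2 + n := by ring
          rw [this, pow_add 2 _ n, pow_add 2 _ ((n + 1) ^ 2), pow_add 2 _ (2 ^ (n / 2 + 1)),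
            pow_add 2 1 (n + 1), pow_one]
          ring
      _ ≤ 2 * L (n + 1) := h2
  omega

theorem L_split (n : ℕ) : L n ≤ Lpr n + np n := by
  classical
  have hsplit : L n =
      Nat.card {G : CG (Fin n) // IsPrimitive G.1} + Nat.card {G : CG (Fin n) // ¬ IsPrimitive G.1} := by
    rw [← Nat.card_sum]
    exact Nat.card_congr (Equiv.sumCompl _).symm
  rw [hsplit]
  apply Nat.add_le_add_right
  refine Nat.card_le_card_of_injective
    (fun G => (⟨G.1.1, G.1.2, G.2⟩ : {G : Set (Set (Fin n)) // IsConvexGeometry G ∧ IsPrimitive G})) ?_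
  intro G H h
  have h' := congrArg Subtype.val h
  exact Subtype.ext (Subtype.ext h')

theorem Lpr_le (n : ℕ) : Lpr n ≤ L n := by
  refine Nat.card_le_card_of_injective
    (fun G : {G : Set (Set (Fin n)) // IsConvexGeometry G ∧ IsPrimitive G} =>
      (⟨G.1, G.2.1⟩ : CG (Fin n))) ?_
  intro G H h
  have h' := congrArg Subtype.val h
  exact Subtype.ext h'

theorem L_le_U (n : ℕ) : L n ≤ n.factorial * U n := by
  classical
  have h1 : n.factorial * U n = Nat.card (Equiv.Perm (Fin n) × Quotient (isoSetoid n)) := by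
    rw [Nat.card_prod, Nat.card_eq_fintype_card, Fintype.card_perm, Fintype.card_fin]
    rfl
  rw [h1]
  refine Nat.card_le_card_of_surjective
    (fun p : Equiv.Perm (Fin n) × Quotient (isoSetoid n) =>
      (⟨{A | p.1 ⁻¹' A ∈ (Quotient.out p.2).1}, isCG_map p.1 (Quotient.out p.2).2⟩ : CG (Fin n))) ?_
  intro G
  obtain ⟨e, he⟩ : Isomorphic (Quotient.out (Quotient.mk (isoSetoid n) G)).1 G.1 :=
    Quotient.exact (s := isoSetoid n) (Quotient.out_eq (Quotient.mk (isoSetoid n) G))
  refine ⟨(e, Quotient.mk (isoSetoid n) G), ?_⟩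
  apply Subtype.ext
  ext A
  change e ⁻¹' A ∈ (Quotient.out (Quotient.mk (isoSetoid n) G)).1 ↔ A ∈ G.1
  rw [he]
  simp

theorem U_split (n : ℕ) : U n ≤ Upr n + np n := by
  classical
  let Q : Quotient (isoSetoid n) → Prop := fun q =>
    ∃ G : CG (Fin n), IsPrimitive G.1 ∧ Quotient.mk (isoSetoid n) G = q
  have hsplit : U n = Nat.card {q // Q q} + Nat.card {q // ¬ Q q} := by
    rw [← Nat.card_sum]
    exact Nat.card_congr (Equiv.sumCompl Q).symm
  rw [hsplit]
  apply Nat.add_le_add_left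
  refine Nat.card_le_card_of_injective
    (fun q : {q // ¬ Q q} => (⟨Quotient.out q.1, fun h =>
      q.2 ⟨Quotient.out q.1, h, Quotient.out_eq q.1⟩⟩ :
        {G : CG (Fin n) // ¬ IsPrimitive G.1})) ?_
  intro q q' h
  have h1 : Quotient.out q.1 = Quotient.out q'.1 := congrArg Subtype.val h
  apply Subtype.ext
  rw [← Quotient.out_eq q.1, ← Quotient.out_eq q'.1, h1]

theorem Upr_le (n : ℕ) : Upr n ≤ U n :=
  Nat.card_le_card_of_injective Subtype.val Subtype.val_injective

theorem L_pos (n : ℕ) : 0 < L n := by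
  have h : IsConvexGeometry (Set.univ : Set (Set (Fin n))) := by
    refine ⟨trivial, fun _ _ _ _ => trivial, fun F _ hF => ?_⟩
    obtain ⟨x, hx⟩ := (Set.ne_univ_iff_exists_notMem F).1 hF
    exact ⟨x, hx, trivial⟩
  have : Nonempty (CG (Fin n)) := ⟨⟨_, h⟩⟩
  exact Nat.card_pos

theorem U_pos (n : ℕ) : 0 < U n := by
  have h1 := L_pos n
  have h2 := L_le_U n
  exact Nat.pos_of_mul_pos_left (lt_of_lt_of_le h1 h2)

/-- The general squeeze. -/
theorem squeeze (a b c : ℕ → ℕ) (hb : ∀ n, 0 < b n) (hab : ∀ n, a n ≤ b n)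
    (hsplit : ∀ n, b n ≤ a n + c n) (hc : ∀ n, 40 ≤ n → c (n + 1) * 2 ^ n ≤ b (n + 1)) :
    Tendsto (fun n => (a n : ℝ) / (b n : ℝ)) atTop (𝓝 1) := by
  rw [← tendsto_add_atTop_iff_nat 1]
  have hlow : Tendsto (fun n : ℕ => (1 : ℝ) - (1 / 2) ^ n) atTop (𝓝 1) := by
    have := (tendsto_pow_atTop_nhds_zero_of_lt_one (r := (1 / 2 : ℝ)) (by norm_num)
      (by norm_num)).const_sub 1
    simpa using this
  refine tendsto_of_tendsto_of_tendsto_of_le_of_le' hlow tendsto_const_nhds ?_ ?_
  · filter_upwards [eventually_ge_atTop 40] with n hn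
    have h1 : (0 : ℝ) < (b (n + 1) : ℝ) := by exact_mod_cast hb (n + 1)
    have h2 : ((b (n + 1) : ℕ) : ℝ) ≤ (a (n + 1) : ℝ) + (c (n + 1) : ℝ) := by
      exact_mod_cast hsplit (n + 1)
    have h3 : (c (n + 1) : ℝ) * 2 ^ n ≤ (b (n + 1) : ℝ) := by exact_mod_cast hc n hn
    have h4 : (c (n + 1) : ℝ) ≤ (1 / 2) ^ n * (b (n + 1) : ℝ) := by
      have h5 : (0 : ℝ) < 2 ^ n := by positivity
      rw [one_div, inv_pow, inv_mul_eq_div, le_div_iff₀ h5]
      exact h3
    rw [le_div_iff₀ h1]
    nlinarith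
  · filter_upwards with n
    have h1 : (0 : ℝ) < (b (n + 1) : ℝ) := by exact_mod_cast hb (n + 1)
    rw [div_le_one h1]
    exact_mod_cast hab (n + 1)

/-- Almost all convex geometries are primitive, both among labeled convex geometries and
among isomorphism classes. -/
theorem result :
    Tendsto (fun n => (Lpr n : ℝ) / (L n : ℝ)) atTop (𝓝 1) ∧
      Tendsto (fun n => (Upr n : ℝ) / (U n : ℝ)) atTop (𝓝 1) := by
  constructor
  · refine squeeze Lpr L np L_pos Lpr_le L_split ?_
    intro n hn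
    refine le_trans ?_ (main_bound n hn)
    have h1 : 1 ≤ (n + 1).factorial := Nat.factorial_pos _
    nlinarith [Nat.zero_le (np (n + 1) * 2 ^ n), Nat.mul_le_mul_left (np (n + 1) * 2 ^ n) h1]
  · refine squeeze Upr U np U_pos Upr_le U_split ?_
    intro n hn
    have h1 := main_bound n hn
    have h2 := L_le_U (n + 1)
    have h3 : (n + 1).factorial * (np (n + 1) * 2 ^ n) ≤ (n + 1).factorial * U (n + 1) := by
      calc (n + 1).factorial * (np (n + 1) * 2 ^ n) =
          np (n + 1) * (n + 1).factorial * 2 ^ n := by ring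
        _ ≤ L (n + 1) := h1
        _ ≤ _ := h2
    exact Nat.le_of_mul_le_mul_left h3 (Nat.factorial_pos _)

end Pool.Agent.Results.MP_0c861e_co.PrimitiveProportion
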